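import Pool.Agent.H695R3.PP.Stmts

set_option autoImplicit false

open scoped BigOperators ENNReal
open MeasureTheory

namespace Pool.Agent.H432R3.PP

open Pool.Agent.H695R3.PP

theorem measurable_UR (c : ℝ) (g : ℝ → ℝ≥0∞) (hg : Measurable g) : Measurable (UR c g) := by
  unfold UR
  refine Measurable.mul ?_ ?_
  · exact ENNReal.measurable_ofReal.comp (measurable_id.abs.inv)
  · exact hg.comp (measurable_const.sub measurable_id.inv)

theorem real_step (X Y Z A B K : ℝ) (hK : 1 ≤ K) (hZ : 0 ≤ Z) (hZY : Z ≤ Y) (hYX : Y ≤ X)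
    (h1 : A + K * Z ≤ 1 / 8 * Y + K * Y) (h2 : B + K * Y ≤ 1 / 8 * X + K * X)
    (h3 : Y ≤ A + B) : Z ≤ (1 - 5 / (16 * K)) * X := by
  have hK0 : 0 < K := by linarith
  have hX : 0 ≤ X := by linarith
  by_cases h : Y ≤ X / 2
  · have h5 : 5 / (16 * K) ≤ 1 / 2 := by
      rw [div_le_div_iff₀ (by positivity) (by norm_num)]
      linarith
    nlinarith
  · push Not at h
    have h4 : 5 * X / 16 ≤ K * (X - Z) := by nlinarith
    have h6 : 5 / (16 * K) * X ≤ X - Z := by
      rw [div_mul_eq_mul_div, div_le_iff₀ (by positivity)]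
      nlinarith
    linarith

theorem taskContr : TaskIso → TaskAvg → TaskDich → TaskContr := by
  intro hIso hAvg hDich
  obtain ⟨C, hC, hD⟩ := hDich
  have hC0 : 0 < C := by linarith
  refine ⟨5 / (16 * C), by positivity, ?_, ?_⟩
  · rw [div_le_div_iff₀ (by positivity) (by norm_num)]
    linarith
  intro ε c₁ g hε hε1 hg
  obtain ⟨hkm, hYX, hloc, -⟩ := hAvg ε g hε hε1 hg
  obtain ⟨hiso1, hiso2⟩ := hIso c₁ (avg ε g) hkm
  have hfm : Measurable (UR c₁ (avg ε g)) := measurable_UR _ _ hkm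
  obtain ⟨-, hZY, -, -⟩ := hAvg ε _ hε hε1 hfm
  have hD1 := hD ε _ (-1) hε hε1 hfm
  have hD2 := hD ε g (c₁ - 2) hε hε1 hg
  have hK1 : 1 ≤ C / ε ^ 2 := by
    rw [le_div_iff₀ (by positivity)]
    nlinarith
  have e1 : 5 / (16 * C) * ε ^ 2 = 5 / (16 * (C / ε ^ 2)) := by
    field_simp
  have hsplit : nsqL (UR c₁ (avg ε g)) ≤
      (∫⁻ x in Set.Icc (-1 : ℝ) (-1 + 4), UR c₁ (avg ε g) x ^ 2) +
      ∫⁻ x in Set.Icc (c₁ - 2) (c₁ - 2 + 4), g x ^ 2 := by
    have hms : MeasurableSet {z : ℝ | 1 < |z|} := measurableSet_lt measurable_const measurable_id.abs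
    unfold nsqL
    rw [← lintegral_add_compl _ hms, add_comm]
    refine add_le_add ?_ ?_
    · refine lintegral_mono_set ?_
      intro z hz
      simp only [Set.mem_compl_iff, Set.mem_setOf_eq, not_lt] at hz
      rw [abs_le] at hz
      exact ⟨hz.1, by linarith [hz.2]⟩
    · refine (hiso2.trans (hloc c₁)).trans (le_of_eq ?_)
      rw [show c₁ - 2 + 4 = c₁ + 2 by ring]
  rw [e1]
  have hpos : 0 < 1 - 5 / (16 * (C / ε ^ 2)) := by
    have : 5 / (16 * (C / ε ^ 2)) ≤ 5 / 16 := by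
      apply div_le_div_of_nonneg_left (by norm_num) (by norm_num)
      linarith
    linarith
  by_cases hX : nsqL g = ⊤
  · rw [hX, ENNReal.mul_top]
    · exact le_top
    · simpa using hpos
  have hYt : nsqL (avg ε g) ≠ ⊤ := ne_top_of_le_ne_top hX hYX
  have hYt' : nsqL (UR c₁ (avg ε g)) ≠ ⊤ := by rw [hiso1]; exact hYt
  have hZt : nsqL (avg ε (UR c₁ (avg ε g))) ≠ ⊤ := ne_top_of_le_ne_top hYt' hZY
  have hAt : (∫⁻ x in Set.Icc (-1 : ℝ) (-1 + 4), UR c₁ (avg ε g) x ^ 2) ≠ ⊤ :=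
    ne_top_of_le_ne_top hYt' (setLIntegral_le_lintegral _ _)
  have hBt : (∫⁻ x in Set.Icc (c₁ - 2) (c₁ - 2 + 4), g x ^ 2) ≠ ⊤ :=
    ne_top_of_le_ne_top hX (setLIntegral_le_lintegral _ _)
  have hKf : ENNReal.ofReal (C / ε ^ 2) ≠ ⊤ := ENNReal.ofReal_ne_top
  rw [← hiso1] at hD2 hYX
  generalize (∫⁻ x in Set.Icc (-1 : ℝ) (-1 + 4), UR c₁ (avg ε g) x ^ 2) = A at *
  generalize (∫⁻ x in Set.Icc (c₁ - 2) (c₁ - 2 + 4), g x ^ 2) = B at *
  generalize nsqL (avg ε (UR c₁ (avg ε g))) = Z at *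
  generalize nsqL (UR c₁ (avg ε g)) = Y at *
  generalize nsqL g = X at *
  lift A to NNReal using hAt
  lift B to NNReal using hBt
  lift X to NNReal using hX
  lift Y to NNReal using hYt'
  lift Z to NNReal using hZt
  have hK0 : 0 ≤ C / ε ^ 2 := by linarith
  have key := real_step X Y Z A B (C / ε ^ 2) hK1 Z.2 (by exact_mod_cast hZY)
    (by exact_mod_cast hYX) ?_ ?_ (by exact_mod_cast hsplit)
  · rw [← ENNReal.ofReal_coe_nnreal, ← ENNReal.ofReal_coe_nnreal,
      ← ENNReal.ofReal_mul hpos.le]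
    exact ENNReal.ofReal_le_ofReal key
  · have h := ENNReal.toReal_mono (by finiteness) hD1
    rw [ENNReal.toReal_add (by finiteness) (by finiteness),
      ENNReal.toReal_add (by finiteness) (by finiteness), ENNReal.toReal_mul, ENNReal.toReal_mul,
      ENNReal.toReal_mul, ENNReal.toReal_ofReal hK0, ENNReal.toReal_ofReal (by norm_num)] at h
    simpa using h
  · have h := ENNReal.toReal_mono (by finiteness) hD2
    rw [ENNReal.toReal_add (by finiteness) (by finiteness),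
      ENNReal.toReal_add (by finiteness) (by finiteness), ENNReal.toReal_mul, ENNReal.toReal_mul,
      ENNReal.toReal_mul, ENNReal.toReal_ofReal hK0, ENNReal.toReal_ofReal (by norm_num)] at h
    simpa using h

end Pool.Agent.H432R3.PP
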